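import Pool.Agent.Lib.MP_3c1ca0_co.Rules

set_option autoImplicit false

namespace Pool.Agent.Lib.MP_3c1ca0_co

theorem runI : runC 136 ([(padN 208, none)], l4)
    = some ([(CF 21 3 4 ++ padN 6, none)], l4) :=
  @of_decide_eq_true _ (decO _ _) (by decide +kernel)

def sJ0 : List Seg :=
  [(L, some 0), (WL ++ (rep 3 M1 ++ (Fw ++ (rep 4 M2 ++ (WR ++ padN 216)))), none)]

def sJ1 : List Seg :=
  [(L, some 0), (rep 23 L ++ (WL ++ (rep 3 M1 ++ (Fw ++ (rep 16 M2 ++ (WR ++ padN 7))))), none)]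

theorem runJ : runC 140 (sJ0, l4) = some (sJ1, l4) :=
  @of_decide_eq_true _ (decO _ _) (by decide +kernel)

end Pool.Agent.Lib.MP_3c1ca0_co
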