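import Mathlib

set_option autoImplicit false

/-! Symbolic row evolution for the two-dimensional subtraction game with difference set
`{(1,1), (1,3), (3,2), (4,1)}`. -/

namespace Pool.Agent.Lib.MP_3c1ca0_co

/-- A letter records the P-status of the cells `(x, y), (x, y-1), (x, y-2)`. -/
abbrev Lt := Bool × Bool × Bool

/-- Context: the four letters at `x-4, x-3, x-2, x-1`. -/
abbrev Ctx := Lt × Lt × Lt × Lt

def z : Lt := (false, false, false)

def zc : Ctx := (z, z, z, z)

/-- The new letter in column `x`. -/
def nf (p4 p3 p1 c : Lt) : Lt :=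
  (!(p1.1 || p1.2.2 || p3.2.1 || p4.1), c.1, c.2.1)

def go : Ctx → List Lt → List Lt
  | _, [] => []
  | (p4, p3, p2, p1), c :: w => nf p4 p3 p1 c :: go (p3, p2, p1, c) w

def aft : Ctx → List Lt → Ctx
  | k, [] => k
  | (_, p3, p2, p1), c :: w => aft (p3, p2, p1, c) w

theorem go_append (u v : List Lt) : ∀ k, go k (u ++ v) = go k u ++ go (aft k u) v := by
  induction u with
  | nil => intro k; simp [go, aft]
  | cons c w ih =>
    rintro ⟨p4, p3, p2, p1⟩
    simp [go, aft, ih]

theorem aft_append (u v : List Lt) : ∀ k, aft k (u ++ v) = aft (aft k u) v := by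
  induction u with
  | nil => intro k; simp [aft]
  | cons c w ih =>
    rintro ⟨p4, p3, p2, p1⟩
    simp [aft, ih]

/-- `n`-fold repetition of a word. -/
def rep : ℕ → List Lt → List Lt
  | 0, _ => []
  | n + 1, w => w ++ rep n w

theorem aft_rep (w : List Lt) (k : Ctx) (h : aft k w = k) (n : ℕ) : aft k (rep n w) = k := by
  induction n with
  | zero => simp [rep, aft]
  | succ n ih => simp [rep, aft_append, h, ih]

theorem go_rep (w : List Lt) (k : Ctx) (h : aft k w = k) (n : ℕ) :
    go k (rep n w) = rep n (go k w) := by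
  induction n with
  | zero => simp [rep, go]
  | succ n ih => simp [rep, go_append, h, ih]

theorem rep_cons (w X : List Lt) (n : ℕ) : w ++ (rep n w ++ X) = rep (n + 1) w ++ X := by
  simp [rep]

theorem rep_snoc (w X : List Lt) (n : ℕ) : rep n w ++ (w ++ X) = rep (n + 1) w ++ X := by
  induction n with
  | zero => simp [rep]
  | succ n ih =>
    rw [rep, List.append_assoc, ih, rep, rep, List.append_assoc]
    simp [rep]

theorem rep_rot (u v X : List Lt) (n : ℕ) :
    u ++ (rep n (v ++ u) ++ (v ++ X)) = rep (n + 1) (u ++ v) ++ X := by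
  induction n with
  | zero => simp [rep]
  | succ n ih =>
    have h : u ++ (rep (n + 1) (v ++ u) ++ (v ++ X))
        = (u ++ v) ++ (u ++ (rep n (v ++ u) ++ (v ++ X))) := by
      simp [rep]
    rw [h, ih, rep_cons]

/-- A segment is a word with either no repetition or a repetition with symbolic exponent. -/
abbrev Seg := List Lt × Option ℕ

def evS (ρ : ℕ → ℕ) : Seg → List Lt
  | (w, none) => w
  | (w, some v) => rep (ρ v) w

def ev (ρ : ℕ → ℕ) : List Seg → List Lt
  | [] => []
  | s :: ss => evS ρ s ++ ev ρ ss

def stepS : Ctx → List Seg → Option (Ctx × List Seg)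
  | k, [] => some (k, [])
  | k, (w, none) :: ss =>
    match stepS (aft k w) ss with
    | some (k', ss') => some (k', (go k w, none) :: ss')
    | none => none
  | k, (w, some v) :: ss =>
    if aft k w = k then
      match stepS k ss with
      | some (k', ss') => some (k', (go k w, some v) :: ss')
      | none => none
    else none

theorem stepS_sound (ρ : ℕ → ℕ) (ss : List Seg) :
    ∀ (k k' : Ctx) (ss' : List Seg), stepS k ss = some (k', ss') →
      go k (ev ρ ss) = ev ρ ss' ∧ aft k (ev ρ ss) = k' := by
  induction ss with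
  | nil =>
    intro k k' ss' h
    simp only [stepS, Option.some.injEq, Prod.mk.injEq] at h
    obtain ⟨rfl, rfl⟩ := h
    simp [ev, go, aft]
  | cons s ss ih =>
    intro k k' ss' h
    obtain ⟨w, o⟩ := s
    cases o with
    | none =>
      simp only [stepS] at h
      cases hs : stepS (aft k w) ss with
      | none => simp [hs] at h
      | some q =>
        obtain ⟨k1, s1⟩ := q
        simp only [hs, Option.some.injEq, Prod.mk.injEq] at h
        obtain ⟨rfl, rfl⟩ := h
        obtain ⟨h1, h2⟩ := ih _ _ _ hs
        simp [ev, evS, go_append, aft_append, h1, h2]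
    | some v =>
      simp only [stepS] at h
      by_cases hk : aft k w = k
      · rw [if_pos hk] at h
        cases hs : stepS k ss with
        | none => simp [hs] at h
        | some q =>
          obtain ⟨k1, s1⟩ := q
          simp only [hs, Option.some.injEq, Prod.mk.injEq] at h
          obtain ⟨rfl, rfl⟩ := h
          obtain ⟨h1, h2⟩ := ih _ _ _ hs
          simp [ev, evS, go_append, aft_append, h1, h2, go_rep _ _ hk, aft_rep _ _ hk]
      · rw [if_neg hk] at h
        exact absurd h (by simp)

def stepC : List Seg × Lt → Option (List Seg × Lt)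
  | (ss, t) =>
    match stepS zc ss with
    | some (k', ss') => if k' = (t, t, t, t) then some (ss', nf t t t t) else none
    | none => none

def runC : ℕ → List Seg × Lt → Option (List Seg × Lt)
  | 0, s => some s
  | n + 1, s =>
    match stepC s with
    | some s' => runC n s'
    | none => none

/-- Infinite row with finite beginning `l` and constant tail `t`. -/
def cfg (l : List Lt) (t : Lt) : ℕ → Lt := fun x => l.getD x t

def Fk : Ctx → (ℕ → Lt) → ℕ → Lt
  | (p4, p3, _, p1), c, 0 => nf p4 p3 p1 (c 0)
  | (_, p3, p2, p1), c, x + 1 => Fk (p3, p2, p1, c 0) (fun n => c (n + 1)) x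

theorem Fk_const (t : Lt) (x : ℕ) : Fk (t, t, t, t) (fun _ => t) x = nf t t t t := by
  induction x with
  | zero => rfl
  | succ x ih => exact ih

theorem Fk_cfg (t : Lt) (l : List Lt) :
    ∀ (k : Ctx), aft k l = (t, t, t, t) → ∀ x, Fk k (cfg l t) x = cfg (go k l) (nf t t t t) x := by
  induction l with
  | nil =>
    intro k hk x
    simp only [aft] at hk
    subst hk
    have : cfg [] t = fun _ => t := by funext n; simp [cfg]
    rw [this, Fk_const]
    simp [cfg, go]
  | cons c w ih =>
    rintro ⟨p4, p3, p2, p1⟩ hk x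
    cases x with
    | zero => simp [Fk, cfg, go]
    | succ x =>
      have h := ih (p3, p2, p1, c) hk x
      have hc : (fun n => cfg (c :: w) t (n + 1)) = cfg w t := by
        funext n; simp [cfg]
      have hc0 : cfg (c :: w) t 0 = c := by simp [cfg]
      rw [Fk, hc, hc0, h]
      simp [cfg, go]

/-- One step of the evolution of rows. -/
def F (c : ℕ → Lt) : ℕ → Lt := Fk zc c

theorem stepC_sound (ρ : ℕ → ℕ) (s s' : List Seg × Lt) (h : stepC s = some s') :
    F (cfg (ev ρ s.1) s.2) = cfg (ev ρ s'.1) s'.2 := by
  obtain ⟨ss, t⟩ := s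
  obtain ⟨ss', t'⟩ := s'
  simp only [stepC] at h
  cases hs : stepS zc ss with
  | none => simp [hs] at h
  | some q =>
    obtain ⟨k1, s1⟩ := q
    simp only [hs] at h
    by_cases hk : k1 = (t, t, t, t)
    · rw [if_pos hk] at h
      simp only [Option.some.injEq, Prod.mk.injEq] at h
      obtain ⟨rfl, rfl⟩ := h
      obtain ⟨h1, h2⟩ := stepS_sound ρ ss _ _ _ hs
      subst hk
      funext x
      simp only [F]
      rw [Fk_cfg t _ _ h2, h1]
    · rw [if_neg hk] at h
      exact absurd h (by simp)

theorem runC_sound (ρ : ℕ → ℕ) (n : ℕ) :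
    ∀ (s s' : List Seg × Lt), runC n s = some s' →
      F^[n] (cfg (ev ρ s.1) s.2) = cfg (ev ρ s'.1) s'.2 := by
  induction n with
  | zero =>
    intro s s' h
    simp only [runC, Option.some.injEq] at h
    subst h
    rfl
  | succ n ih =>
    intro s s' h
    simp only [runC] at h
    cases hs : stepC s with
    | none => simp [hs] at h
    | some q =>
      simp only [hs] at h
      rw [Function.iterate_succ_apply, stepC_sound ρ _ _ hs]
      exact ih _ _ h

theorem cfg_pad (l : List Lt) (t : Lt) (n : ℕ) :
    cfg (l ++ List.replicate n t) t = cfg l t := by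
  funext x
  simp only [cfg, List.getD_eq_getElem?_getD]
  by_cases hx : x < l.length
  · rw [List.getElem?_append_left hx]
  · rw [List.getElem?_append_right (by omega), List.getElem?_eq_none (l := l) (by omega)]
    by_cases h2 : x - l.length < n
    · simp [h2]
    · simp [h2]

/-- The stream preceded by the context. -/
def ek (k : Ctx) (c : ℕ → Lt) : ℕ → Lt
  | 0 => k.1
  | 1 => k.2.1
  | 2 => k.2.2.1
  | 3 => k.2.2.2
  | n + 4 => c n

theorem Fk_apply (x : ℕ) : ∀ (k : Ctx) (c : ℕ → Lt),
    Fk k c x = nf (ek k c x) (ek k c (x + 1)) (ek k c (x + 3)) (ek k c (x + 4)) := by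
  induction x with
  | zero => rintro ⟨p4, p3, p2, p1⟩ c; rfl
  | succ x ih =>
    rintro ⟨p4, p3, p2, p1⟩ c
    rw [Fk, ih]
    have key : ∀ n, ek (p3, p2, p1, c 0) (fun n => c (n + 1)) n = ek (p4, p3, p2, p1) c (n + 1) := by
      intro n
      match n with
      | 0 => rfl
      | 1 => rfl
      | 2 => rfl
      | 3 => rfl
      | n + 4 => rfl
    rw [key, key, key, key]

/-- `gm c x j` is the letter `j` columns to the left of `x`. -/
def gm (c : ℕ → Lt) (x j : ℕ) : Lt := if j ≤ x then c (x - j) else z

theorem F_apply (c : ℕ → Lt) (x : ℕ) :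
    F c x = nf (gm c x 4) (gm c x 3) (gm c x 1) (c x) := by
  rw [F, Fk_apply]
  have h4 : ek zc c x = gm c x 4 := by
    match x with
    | 0 => rfl
    | 1 => rfl
    | 2 => rfl
    | 3 => rfl
    | n + 4 => simp [ek, gm]
  have h3 : ek zc c (x + 1) = gm c x 3 := by
    match x with
    | 0 => rfl
    | 1 => rfl
    | 2 => rfl
    | n + 3 => simp [ek, gm]
  have h1 : ek zc c (x + 3) = gm c x 1 := by
    match x with
    | 0 => rfl
    | n + 1 => simp [ek, gm]
  rw [h4, h3, h1]
  rfl

end Pool.Agent.Lib.MP_3c1ca0_co
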