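import Pool.Agent.Lib.MP_3c1ca0_co.Base

set_option autoImplicit false

namespace Pool.Agent.Lib.MP_3c1ca0_co

theorem cfg_padN (l : List Lt) (n : ℕ) : cfg (l ++ padN n) l4 = cfg l l4 := cfg_pad l l4 n

theorem stepF (a i j : ℕ) :
    F^[12] (cfg (CF a (i + 3) (j + 8)) l4) = cfg (CF (a + 2) (i + 5) (j + 5)) l4 := by
  have h := runC_sound (rho a i j) 12 _ _ runF
  have e0 : ev (rho a i j) sF0 = CF a (i + 3) (j + 8) ++ padN 22 := by
    simp only [ev, evS, sF0, rho, CF, List.append_assoc, rep, List.append_nil, List.nil_append]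
  have e1 : ev (rho a i j) sF1 = CF (a + 2) (i + 5) (j + 5) ++ padN 4 := by
    simp only [ev, evS, sF1, rho, CF, List.append_assoc, List.append_nil]
    rw [rep_snoc, rep_snoc]
    have h1 : ∀ X, M1 ++ (u1 ++ (rep i (v1 ++ u1) ++ (v1 ++ (rep 3 M1 ++ X))))
        = rep (i + 5) M1 ++ X := by
      intro X
      rw [rep_rot]
      change M1 ++ (rep (i + 1) M1 ++ (rep 3 M1 ++ X)) = _
      rw [rep_cons]
      have h3 : rep 3 M1 ++ X = M1 ++ (M1 ++ (M1 ++ X)) := by simp [rep]
      rw [h3, rep_snoc, rep_snoc, rep_snoc]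
    have h2 : ∀ X, u2 ++ (rep j (v2 ++ u2) ++ (v2 ++ (rep 4 M2 ++ X)))
        = rep (j + 5) M2 ++ X := by
      intro X
      rw [rep_rot]
      change rep (j + 1) M2 ++ (rep 4 M2 ++ X) = _
      have h3 : rep 4 M2 ++ X = M2 ++ (M2 ++ (M2 ++ (M2 ++ X))) := by simp [rep]
      rw [h3, rep_snoc, rep_snoc, rep_snoc, rep_snoc]
    rw [h1, h2]
  simp only [e0, e1] at h
  rw [cfg_padN, cfg_padN] at h
  exact h

theorem stepSl (a i j : ℕ) :
    F^[12] (cfg (CS a (i + 3) (j + 1)) l4) = cfg (CS (a + 2) (i + 2) (j + 4)) l4 := by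
  have h := runC_sound (rho a i j) 12 _ _ runS
  have e0 : ev (rho a i j) sS0 = CS a (i + 3) (j + 1) ++ padN 22 := by
    simp only [ev, evS, sS0, rho, CS, List.append_assoc, rep, List.append_nil, List.cons_append]
  have e1 : ev (rho a i j) sS1 = CS (a + 2) (i + 2) (j + 4) ++ padN 4 := by
    simp only [ev, evS, sS1, rho, CS, List.append_assoc, List.append_nil, List.cons_append,
      List.nil_append]
    rw [rep_snoc, rep_snoc]
    have h1 : ∀ X, M1 ++ (u1 ++ (rep i (v1 ++ u1) ++ (v1 ++ X)))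
        = rep (i + 2) M1 ++ X := by
      intro X
      rw [rep_rot]
      change M1 ++ (rep (i + 1) M1 ++ X) = _
      rw [rep_cons]
    have h2 : ∀ X, rep j (v2 ++ u2) ++ (v2 ++ (rep 4 M2 ++ X))
        = v2 ++ (rep (j + 4) M2 ++ X) := by
      intro X
      rw [rep_rot2]
      change v2 ++ (rep j M2 ++ (rep 4 M2 ++ X)) = _
      have h3 : rep 4 M2 ++ X = M2 ++ (M2 ++ (M2 ++ (M2 ++ X))) := by simp [rep]
      rw [h3, rep_snoc, rep_snoc, rep_snoc, rep_snoc]
    rw [h1, h2]
  simp only [e0, e1] at h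
  rw [cfg_padN, cfg_padN] at h
  exact h

theorem rep_add (m n : ℕ) (w : List Lt) : rep (m + n) w = rep m w ++ rep n w := by
  induction m with
  | zero => simp [rep]
  | succ m ih =>
    rw [show m + 1 + n = (m + n) + 1 by omega]
    simp [rep, ih]

theorem rep_one (w : List Lt) : rep 1 w = w := by simp [rep]

theorem stepB (a i : ℕ) :
    F^[48] (cfg (CF a (i + 8) 7) l4) = cfg (CS (a + 8) (i + 13) 2) l4 := by
  have h := runC_sound (rho a i 0) 48 _ _ runB
  have e0 : ev (rho a i 0) sB0 = CF a (i + 8) 7 ++ padN 76 := by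
    rw [Nat.add_comm i 8]
    simp only [ev, evS, sB0, rho, CF, List.append_assoc, rep_add 8 i, List.append_nil]
  have e1 : ev (rho a i 0) sB1 = CS (a + 8) (i + 13) 2 ++ padN 5 := by
    rw [show i + 13 = 1 + (i + 12) by omega]
    simp only [ev, evS, sB1, rho, CS, List.append_assoc, rep_add, rep_one, List.append_nil,
      List.cons_append]
  simp only [e0, e1] at h
  rw [cfg_padN, cfg_padN] at h
  exact h

theorem stepA (a j : ℕ) :
    F^[56] (cfg (CS a 2 (j + 20)) l4) = cfg (CF (a + 9) 3 (j + 22)) l4 := by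
  have h := runC_sound (rho a 0 j) 56 _ _ runA
  have e0 : ev (rho a 0 j) sA0 = CS a 2 (j + 20) ++ padN 88 := by
    rw [Nat.add_comm j 20]
    simp only [ev, evS, sA0, rho, CS, List.append_assoc, rep_add 20 j, List.append_nil,
      List.cons_append]
  have e1 : ev (rho a 0 j) sA1 = CF (a + 9) 3 (j + 22) ++ padN 4 := by
    rw [show j + 22 = 1 + (j + 21) by omega]
    simp only [ev, evS, sA1, rho, CF, List.append_assoc, rep_add 1, rep_add j, rep_add a, rep_one,
      List.append_nil]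
  simp only [e0, e1] at h
  rw [cfg_padN, cfg_padN] at h
  exact h

/-- Rows of the game: `S y x` is the letter of column `x` at row `y`. -/
def S (y : ℕ) : ℕ → Lt := F^[y] (fun _ => l4)

theorem S_add (y n : ℕ) : S (y + n) = F^[n] (S y) := by
  simp only [S]
  rw [Nat.add_comm, Function.iterate_add_apply]

theorem S_succ (y : ℕ) : S (y + 1) = F (S y) := S_add y 1

theorem base1 : S 136 = cfg (CF 21 3 4) l4 := by
  have h := runC_sound (rho 0 0 0) 136 _ _ runI
  simp only [ev, evS, List.append_nil] at h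
  rw [cfg_padN] at h
  have h0 : cfg (padN 208) l4 = fun _ => l4 := by
    have := cfg_padN [] 208
    simp only [List.nil_append] at this
    rw [this]
    funext x
    simp [cfg]
  rw [h0] at h
  exact h

theorem base2 : S 276 = cfg (CF 44 3 16) l4 := by
  have h := runC_sound (rho 21 0 0) 140 _ _ runJ
  have e0 : ev (rho 21 0 0) sJ0 = CF 21 3 4 ++ padN 216 := by
    simp only [ev, evS, sJ0, rho, CF, List.append_assoc, List.append_nil]
  have e1 : ev (rho 21 0 0) sJ1 = CF 44 3 16 ++ padN 7 := by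
    rw [show (44 : ℕ) = 21 + 23 by rfl]
    simp only [ev, evS, sJ1, rho, CF, List.append_assoc, rep_add 21 23, List.append_nil]
  simp only [e0, e1] at h
  rw [cfg_padN, cfg_padN] at h
  rw [show (276 : ℕ) = 136 + 140 by rfl, S_add, base1, h]

theorem phaseF (n : ℕ) : ∀ a i : ℕ,
    F^[12 * n] (cfg (CF a (i + 3) (3 * n + 7)) l4) = cfg (CF (a + 2 * n) (i + 3 + 2 * n) 7) l4 := by
  induction n with
  | zero => intro a i; simp
  | succ n ih =>
    intro a i
    rw [show 12 * (n + 1) = 12 * n + 12 by ring, Function.iterate_add_apply,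
      show 3 * (n + 1) + 7 = (3 * n + 2) + 8 by ring, stepF,
      show 3 * n + 2 + 5 = 3 * n + 7 by ring, show i + 5 = (i + 2) + 3 by ring, ih]
    congr 2 <;> ring

theorem phaseS (n : ℕ) : ∀ a i j : ℕ,
    F^[12 * n] (cfg (CS a (i + 2 + n) (j + 1)) l4)
      = cfg (CS (a + 2 * n) (i + 2) (j + 1 + 3 * n)) l4 := by
  induction n with
  | zero => intro a i j; simp
  | succ n ih =>
    intro a i j
    rw [show 12 * (n + 1) = 12 * n + 12 by ring, Function.iterate_add_apply,
      show i + 2 + (n + 1) = (i + n) + 3 by ring, stepSl,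
      show i + n + 2 = i + 2 + n by ring, show j + 4 = (j + 3) + 1 by ring, ih]
    congr 2 <;> ring

theorem cycle_S (M t a : ℕ) (h : S t = cfg (CF a 3 (12 * M + 16)) l4) (s : ℕ)
    (hs : s ≤ 8 * M + 12) :
    S (t + 12 * (4 * M + 7 + s))
      = cfg (CS (a + 2 * (4 * M + 7 + s)) (8 * M + 14 - s) (2 + 3 * s)) l4 := by
  have h1 := phaseF (4 * M + 3) a 0
  rw [show 3 * (4 * M + 3) + 7 = 12 * M + 16 by ring, show 0 + 3 = 3 by rfl, ← h, ← S_add] at h1
  have h2 := stepB (a + 2 * (4 * M + 3)) (8 * M + 1)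
  rw [show 8 * M + 1 + 8 = 3 + 2 * (4 * M + 3) by ring, ← h1, ← S_add] at h2
  obtain ⟨i, hi⟩ : ∃ i, 8 * M + 12 = i + s := ⟨8 * M + 12 - s, by omega⟩
  have h3 := phaseS s (a + 2 * (4 * M + 3) + 8) i 1
  rw [show i + 2 + s = 8 * M + 1 + 13 by omega, show 1 + 1 = 2 by rfl, ← h2, ← S_add] at h3
  rw [show t + 12 * (4 * M + 3) + 48 + 12 * s = t + 12 * (4 * M + 7 + s) by ring] at h3
  rw [h3]
  congr 2
  · ring
  · omega

theorem cycle_F (M t a : ℕ) (h : S t = cfg (CF a 3 (12 * M + 16)) l4) :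
    S (t + (144 * M + 284)) = cfg (CF (a + (24 * M + 47)) 3 (24 * M + 40)) l4 := by
  have h1 := cycle_S M t a h (8 * M + 12) le_rfl
  have h2 := stepA (a + 2 * (4 * M + 7 + (8 * M + 12))) (24 * M + 18)
  rw [show 24 * M + 18 + 20 = 2 + 3 * (8 * M + 12) by ring] at h2
  rw [show 8 * M + 14 - (8 * M + 12) = 2 by omega] at h1
  rw [← h1, ← S_add] at h2
  rw [show t + (144 * M + 284) = t + 12 * (4 * M + 7 + (8 * M + 12)) + 56 by ring, h2]
  congr 2
  ring

theorem two_pow_ge (n : ℕ) : n + 1 ≤ 2 ^ n := Nat.lt_two_pow_self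

theorem main_cfg (n : ℕ) :
    S (288 * 2 ^ n - 12 - 4 * n) = cfg (CF (48 * 2 ^ n - n - 4) 3 (12 * (2 * 2 ^ n - 2) + 16)) l4 := by
  induction n with
  | zero => exact base2
  | succ n ih =>
    have h := cycle_F _ _ _ ih
    have hp := two_pow_ge n
    rw [show 288 * 2 ^ (n + 1) - 12 - 4 * (n + 1)
      = 288 * 2 ^ n - 12 - 4 * n + (144 * (2 * 2 ^ n - 2) + 284) by rw [pow_succ]; omega, h]
    congr 2
    · rw [pow_succ]; omega
    · rw [pow_succ]; omega

end Pool.Agent.Lib.MP_3c1ca0_co
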