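import Pool.Agent.Lib.MP_3c1ca0_co.Cycle

set_option autoImplicit false

namespace Pool.Agent.Lib.MP_3c1ca0_co

/-- `r y x` says that `(x, y)` is a P-position. -/
def r (y x : ℕ) : Bool := (S y x).1

theorem S_zero (x : ℕ) : S 0 x = l4 := rfl

theorem S_21 (y x : ℕ) : (S y x).2.1 = if 1 ≤ y then r (y - 1) x else false := by
  cases y with
  | zero => rfl
  | succ y =>
    rw [S_succ, F_apply]
    simp [nf, r]

theorem S_22 (y x : ℕ) : (S y x).2.2 = if 2 ≤ y then r (y - 2) x else false := by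
  cases y with
  | zero => rfl
  | succ y =>
    rw [S_succ, F_apply]
    simp only [nf]
    rw [S_21]
    by_cases hy : 1 ≤ y
    · rw [if_pos hy, if_pos (by omega)]
      rfl
    · rw [if_neg hy, if_neg (by omega)]

/-- Value at `(x - a, y - b)`, false when this is not a position. -/
def pp (y x b a : ℕ) : Bool := if b ≤ y ∧ a ≤ x then r (y - b) (x - a) else false

theorem r_rec (y x : ℕ) :
    r y x = !(pp y x 1 1 || pp y x 3 1 || pp y x 2 3 || pp y x 1 4) := by
  cases y with
  | zero => simp [pp, r, S_zero, l4]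
  | succ y =>
    have h1 : (gm (S y) x 1).1 = pp (y + 1) x 1 1 := by
      unfold gm pp
      by_cases hx : 1 ≤ x
      · rw [if_pos hx, if_pos ⟨by omega, hx⟩]; rfl
      · rw [if_neg hx, if_neg (by omega)]; rfl
    have h2 : (gm (S y) x 1).2.2 = pp (y + 1) x 3 1 := by
      unfold gm pp
      by_cases hx : 1 ≤ x
      · rw [if_pos hx, S_22]
        by_cases hy : 2 ≤ y
        · rw [if_pos hy, if_pos ⟨by omega, hx⟩]; rfl
        · rw [if_neg hy, if_neg (by omega)]
      · rw [if_neg hx, if_neg (by omega)]; rfl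
    have h3 : (gm (S y) x 3).2.1 = pp (y + 1) x 2 3 := by
      unfold gm pp
      by_cases hx : 3 ≤ x
      · rw [if_pos hx, S_21]
        by_cases hy : 1 ≤ y
        · rw [if_pos hy, if_pos ⟨by omega, hx⟩]; rfl
        · rw [if_neg hy, if_neg (by omega)]
      · rw [if_neg hx, if_neg (by omega)]; rfl
    have h4 : (gm (S y) x 4).1 = pp (y + 1) x 1 4 := by
      unfold gm pp
      by_cases hx : 4 ≤ x
      · rw [if_pos hx, if_pos ⟨by omega, hx⟩]; rfl
      · rw [if_neg hx, if_neg (by omega)]; rfl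
    rw [← h1, ← h2, ← h3, ← h4]
    simp only [r, S_succ, F_apply, nf]

/-- Letters of the upper left region. -/
def Lp (x : ℕ) : Lt := if x % 7 = 0 ∨ x % 7 = 2 then l7 else l0

def PrefL (y n : ℕ) : Prop := ∀ x, x < n → S y x = Lp x

theorem gm_pref (c : ℕ → Lt) (n x j : ℕ) (h : ∀ x, x < n → c x = Lp x) (hx : x < n)
    (hj : j ≤ 4) : gm c x j = Lp (x + 7 - j) := by
  unfold gm
  by_cases hjx : j ≤ x
  · rw [if_pos hjx, h _ (by omega)]
    unfold Lp
    rw [show (x + 7 - j) % 7 = (x - j) % 7 by omega]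
  · rw [if_neg hjx]
    unfold Lp
    rw [if_neg (by omega)]
    rfl

theorem pref_step (y n : ℕ) (h : PrefL y n) : PrefL (y + 1) n := by
  intro x hx
  rw [S_succ, F_apply, gm_pref _ n x 4 h hx (by norm_num), gm_pref _ n x 3 h hx (by norm_num),
    gm_pref _ n x 1 h hx (by norm_num), h x hx]
  have hc : x % 7 = 0 ∨ x % 7 = 1 ∨ x % 7 = 2 ∨ x % 7 = 3 ∨ x % 7 = 4 ∨ x % 7 = 5 ∨ x % 7 = 6 := by
    omega
  unfold Lp
  rw [show (x + 7 - 4) % 7 = (x % 7 + 3) % 7 by omega,
    show (x + 7 - 3) % 7 = (x % 7 + 4) % 7 by omega,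
    show (x + 7 - 1) % 7 = (x % 7 + 6) % 7 by omega]
  rcases hc with hc | hc | hc | hc | hc | hc | hc <;> rw [hc] <;> decide

theorem pref_mono (y y' n : ℕ) (hy : y ≤ y') (h : PrefL y n) : PrefL y' n := by
  induction y', hy using Nat.le_induction with
  | base => exact h
  | succ m _ ih => exact pref_step _ _ ih

theorem rep_L_getD (a : ℕ) (X : List Lt) (t : Lt) :
    ∀ x, x < 7 * a → (rep a L ++ X).getD x t = Lp x := by
  induction a with
  | zero => intro x hx; omega
  | succ a ih =>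
    intro x hx
    have e : rep (a + 1) L ++ X = L ++ (rep a L ++ X) := by simp [rep]
    rw [e]
    by_cases h7 : x < 7
    · interval_cases x <;> rfl
    · obtain ⟨x', rfl⟩ : ∃ x', x = x' + 7 := ⟨x - 7, by omega⟩
      have : (L ++ (rep a L ++ X)).getD (x' + 7) t = (rep a L ++ X).getD x' t := by
        simp [L]
      rw [this, ih x' (by omega)]
      unfold Lp
      rw [show (x' + 7) % 7 = x' % 7 by omega]

theorem rep_L_len (a : ℕ) : (rep a L).length = 7 * a := by
  induction a with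
  | zero => rfl
  | succ a ih =>
    rw [rep, List.length_append, ih]
    simp only [L, List.length_cons, List.length_nil]
    ring

theorem pref_CS (y a i j : ℕ) (h : S y = cfg (CS a i j) l4) : PrefL y (7 * a) := by
  intro x hx
  rw [h]
  exact rep_L_getD a _ _ x hx

theorem CF_letter (a j : ℕ) : cfg (CF a 3 j) l4 (7 * a + 5) = l3 := by
  unfold cfg CF
  rw [List.getD_append_right _ _ _ _ (by rw [rep_L_len]; omega), rep_L_len,
    show 7 * a + 5 - 7 * a = 5 by omega]
  rfl

/-- Columns and rows of the marked points. -/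
def px (n : ℕ) : ℕ := 7 * (48 * 2 ^ n - n - 4) + 5
def py (n : ℕ) : ℕ := 288 * 2 ^ n - 12 - 4 * n - 1

theorem mark (n : ℕ) : r (py n) (px n) = true := by
  have h := main_cfg n
  have hp := two_pow_ge n
  have h2 := S_21 (288 * 2 ^ n - 12 - 4 * n) (px n)
  rw [if_pos (by omega), h] at h2
  unfold px at h2
  rw [CF_letter] at h2
  exact h2.symm

theorem nomark (k D : ℕ) (hD : 1 ≤ D) (x y : ℕ) (hx : px k + x = 2 * px (k + 8 * D))
    (hy : py k + y = 2 * py (k + 8 * D)) : r y x = false := by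
  have hk := two_pow_ge k
  have hl := two_pow_ge (k + 8 * D)
  have h256 : 256 * 2 ^ k ≤ 2 ^ (k + 8 * D) := by
    rw [show 256 = 2 ^ 8 by norm_num, ← pow_add]
    exact Nat.pow_le_pow_right (by norm_num) (by omega)
  have hm := main_cfg (k + 8 * D)
  have hc := cycle_S _ _ _ hm (16 * 2 ^ (k + 8 * D) - 24 * 2 ^ k - 3 * D + 1) (by omega)
  have hpre := pref_CS _ _ _ _ hc
  have hpre2 := pref_mono _ y _ (by unfold py at hy; omega) hpre
  have h3 := hpre2 x (by unfold px at hx; omega)
  unfold r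
  rw [h3]
  unfold Lp
  rw [if_neg (by unfold px at hx; omega)]
  rfl

/-- The set of P-positions. -/
def PS : Set (Fin 2 → ℕ) := {v | r (v 1) (v 0) = true}

/-- The difference set. -/
def DS : Finset (Fin 2 → ℤ) := {![1, 1], ![1, 3], ![3, 2], ![4, 1]}

theorem pp_of (x y a b : ℕ) (h : pp y x b a = true) :
    b ≤ y ∧ a ≤ x ∧ r (y - b) (x - a) = true := by
  unfold pp at h
  by_cases hc : b ≤ y ∧ a ≤ x
  · rw [if_pos hc] at h
    exact ⟨hc.1, hc.2, h⟩
  · rw [if_neg hc] at h
    exact absurd h (by simp)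

theorem PS_iff (x : Fin 2 → ℕ) :
    x ∈ PS ↔ ∀ y : Fin 2 → ℕ, (fun i => (x i : ℤ) - (y i : ℤ)) ∈ DS → y ∉ PS := by
  have hrec := r_rec (x 1) (x 0)
  constructor
  · intro hx y hy hyP
    have hx' : r (x 1) (x 0) = true := hx
    have hy' : r (y 1) (y 0) = true := hyP
    rw [hx'] at hrec
    simp only [Bool.true_eq, Bool.not_eq_true', Bool.or_eq_false_iff] at hrec
    obtain ⟨⟨⟨h1, h2⟩, h3⟩, h4⟩ := hrec
    simp only [DS, Finset.mem_insert, Finset.mem_singleton] at hy
    have key : ∀ a b : ℕ, (fun i => (x i : ℤ) - (y i : ℤ)) = ![(a : ℤ), (b : ℤ)] →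
        pp (x 1) (x 0) b a = true := by
      intro a b h
      have e0 := congrFun h 0
      have e1 := congrFun h 1
      simp only [Matrix.cons_val_zero, Matrix.cons_val_one] at e0 e1
      unfold pp
      rw [if_pos ⟨by omega, by omega⟩, show x 1 - b = y 1 by omega, show x 0 - a = y 0 by omega]
      exact hy'
    rcases hy with h | h | h | h
    · have := key 1 1 (by simpa using h)
      rw [h1] at this; exact absurd this (by simp)
    · have := key 1 3 (by simpa using h)
      rw [h2] at this; exact absurd this (by simp)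
    · have := key 3 2 (by simpa using h)
      rw [h3] at this; exact absurd this (by simp)
    · have := key 4 1 (by simpa using h)
      rw [h4] at this; exact absurd this (by simp)
  · intro h
    have key : ∀ a b : ℕ, ![(a : ℤ), (b : ℤ)] ∈ DS → pp (x 1) (x 0) b a = false := by
      intro a b hab
      by_contra hc
      rw [Bool.not_eq_false] at hc
      obtain ⟨h1, h2, h3⟩ := pp_of _ _ _ _ hc
      refine h ![x 0 - a, x 1 - b] ?_ ?_
      · have e : (fun i => (x i : ℤ) - ((![x 0 - a, x 1 - b] : Fin 2 → ℕ) i : ℤ))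
            = ![(a : ℤ), (b : ℤ)] := by
          funext i
          fin_cases i
          · simp; omega
          · simp; omega
        rw [e]
        exact hab
      · exact h3
    have h1 := key 1 1 (by simp [DS])
    have h2 := key 1 3 (by simp [DS])
    have h3 := key 3 2 (by simp [DS])
    have h4 := key 4 1 (by simp [DS])
    rw [h1, h2, h3, h4] at hrec
    simpa [PS] using hrec

theorem not_semilinear :
    ¬ ∃ (k : ℕ) (b : Fin k → Fin 2 → ℕ) (m : Fin k → ℕ)
          (p : ∀ i : Fin k, Fin (m i) → Fin 2 → ℕ),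
          PS = {x | ∃ i : Fin k, ∃ c : Fin (m i) → ℕ, x = b i + ∑ j, c j • p i j} := by
  rintro ⟨k, b, m, p, hP⟩
  have hpt : ∀ n : ℕ, ∃ i : Fin k, ∃ c : Fin (m i) → ℕ,
      (![px (8 * n), py (8 * n)] : Fin 2 → ℕ) = b i + ∑ j, c j • p i j := by
    intro n
    have : (![px (8 * n), py (8 * n)] : Fin 2 → ℕ) ∈ PS := mark (8 * n)
    rw [hP] at this
    exact this
  choose I hI using hpt
  obtain ⟨i, hi⟩ := Finite.exists_infinite_fiber I
  have hset : (I ⁻¹' {i}).Infinite := Set.infinite_coe_iff.mp hi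
  obtain ⟨φ, hφmono, hφmem⟩ : ∃ φ : ℕ → ℕ, StrictMono φ ∧ ∀ n, I (φ n) = i := by
    refine Filter.extraction_of_frequently_atTop (P := fun n => I n = i) ?_
    exact Nat.frequently_atTop_iff_infinite.mpr hset
  have hφ : ∀ n : ℕ, ∃ c : Fin (m i) → ℕ,
      (![px (8 * φ n), py (8 * φ n)] : Fin 2 → ℕ) = b i + ∑ j, c j • p i j := by
    intro n
    have := hI (φ n)
    rw [hφmem n] at this
    exact this
  choose g hg using hφ
  obtain ⟨s, t, hst, hle⟩ : ∃ s t : ℕ, s < t ∧ g s ≤ g t :=
    wellQuasiOrdered_le g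
  have hlt : φ s < φ t := hφmono hst
  -- the point 2 p_t - p_s
  have hq : (b i + ∑ j, (2 * g t j - g s j) • p i j) ∈ PS := by
    rw [hP]
    exact ⟨i, _, rfl⟩
  set q := b i + ∑ j, (2 * g t j - g s j) • p i j with hqdef
  have hsum : (![px (8 * φ s), py (8 * φ s)] : Fin 2 → ℕ) + q
      = 2 • (![px (8 * φ t), py (8 * φ t)] : Fin 2 → ℕ) := by
    rw [hg s, hg t, hqdef]
    rw [smul_add, Finset.smul_sum]
    have : (∑ j, g s j • p i j) + (∑ j, (2 * g t j - g s j) • p i j)
        = ∑ j, 2 • (g t j • p i j) := by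
      rw [← Finset.sum_add_distrib]
      refine Finset.sum_congr rfl fun j _ => ?_
      rw [← add_smul, smul_smul]
      congr 1
      have hj : g s j ≤ g t j := hle j
      omega
    rw [← this, two_smul]
    abel
  have e0 := congrFun hsum 0
  have e1 := congrFun hsum 1
  simp only [Pi.add_apply, Pi.smul_apply, Matrix.cons_val_zero, Matrix.cons_val_one,
    smul_eq_mul] at e0 e1
  have hD : 8 * φ t = 8 * φ s + 8 * (φ t - φ s) := by omega
  rw [hD] at e0 e1
  have := nomark (8 * φ s) (φ t - φ s) (by omega) (q 0) (q 1) e0 e1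
  have hq' : r (q 1) (q 0) = true := hq
  rw [this] at hq'
  exact absurd hq' (by simp)

theorem final :
    ¬ (∀ (d : ℕ) (D : Finset (Fin d → ℤ)),
      (∀ a ∈ D, 0 < ∑ i, a i) →
      (∀ a ∈ D, ∀ i, 0 ≤ a i) →
      ∀ P : Set (Fin d → ℕ),
        (∀ x : Fin d → ℕ, x ∈ P ↔
          ∀ y : Fin d → ℕ, (fun i => (x i : ℤ) - (y i : ℤ)) ∈ D → y ∉ P) →
        ∃ (k : ℕ) (b : Fin k → Fin d → ℕ) (m : Fin k → ℕ)
          (p : ∀ i : Fin k, Fin (m i) → Fin d → ℕ),
          P = {x | ∃ i : Fin k, ∃ c : Fin (m i) → ℕ, x = b i + ∑ j, c j • p i j}) := by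
  intro H
  refine not_semilinear (H 2 DS ?_ ?_ PS PS_iff)
  · intro a ha
    simp only [DS, Finset.mem_insert, Finset.mem_singleton] at ha
    rcases ha with rfl | rfl | rfl | rfl <;> simp [Fin.sum_univ_two]
  · intro a ha i
    simp only [DS, Finset.mem_insert, Finset.mem_singleton] at ha
    rcases ha with rfl | rfl | rfl | rfl <;> fin_cases i <;> simp

end Pool.Agent.Lib.MP_3c1ca0_co
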