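import Pool.Agent.Lib.MP_3c1ca0_co.Core

set_option autoImplicit false

namespace Pool.Agent.Lib.MP_3c1ca0_co

def decLt : DecidableEq Lt := inferInstance
def decW : DecidableEq (List Lt) := by
  haveI := decLt
  infer_instance
def decSeg : DecidableEq Seg := by
  haveI := decW
  infer_instance
def decSegs : DecidableEq (List Seg) := by
  haveI := decSeg
  infer_instance
def decC : DecidableEq (List Seg × Lt) := by
  haveI := decSegs
  haveI := decLt
  infer_instance
def decO : DecidableEq (Option (List Seg × Lt)) := by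
  haveI := decC
  infer_instance

def l0 : Lt := (false, false, false)
def l1 : Lt := (false, false, true)
def l2 : Lt := (false, true, false)
def l3 : Lt := (false, true, true)
def l4 : Lt := (true, false, false)
def l5 : Lt := (true, false, true)
def l7 : Lt := (true, true, true)

/-- The block of the upper left region. -/
def L : List Lt := [l7, l0, l7, l0, l0, l0, l0]
def WL : List Lt := [l7, l0, l5, l0, l0]
def u1 : List Lt := [l3, l1]
def v1 : List Lt := [l4, l2, l0, l5, l4, l2]
/-- The block of the left middle region. -/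
def M1 : List Lt := u1 ++ v1
def Fw : List Lt := [l3, l1, l4, l2, l0, l5, l5, l0]
def u2 : List Lt := [l2, l1]
def v2 : List Lt := [l5, l4]
/-- The block of the right middle region. -/
def M2 : List Lt := u2 ++ v2
def WR : List Lt := [l0, l0]

/-- Configuration with a fast signal. -/
def CF (a i j : ℕ) : List Lt := rep a L ++ (WL ++ (rep i M1 ++ (Fw ++ (rep j M2 ++ WR))))
/-- Configuration with a slow signal. -/
def CS (a i j : ℕ) : List Lt := rep a L ++ (WL ++ (rep i M1 ++ (l1 :: (v2 ++ (rep j M2 ++ WR)))))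

def rho (a i j : ℕ) : ℕ → ℕ
  | 0 => a
  | 1 => i
  | _ => j

theorem rep_rot2 (u v X : List Lt) (n : ℕ) :
    rep n (u ++ v) ++ (u ++ X) = u ++ (rep n (v ++ u) ++ X) := by
  induction n with
  | zero => simp [rep]
  | succ n ih =>
    have h : rep (n + 1) (u ++ v) ++ (u ++ X) = (u ++ v) ++ (rep n (u ++ v) ++ (u ++ X)) := by
      simp [rep]
    rw [h, ih]
    simp [rep]

def padN (n : ℕ) : List Lt := List.replicate n l4

def sF0 : List Seg :=
  [(L, some 0), (WL ++ (M1 ++ (M1 ++ M1)), none), (M1, some 1),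
    (Fw ++ rep 8 M2, none), (M2, some 2), (WR ++ padN 22, none)]

def sF1 : List Seg :=
  [(L, some 0), (L ++ (L ++ (WL ++ (M1 ++ u1))), none), (v1 ++ u1, some 1),
    (v1 ++ (rep 3 M1 ++ (Fw ++ u2)), none), (v2 ++ u2, some 2),
    (v2 ++ (rep 4 M2 ++ (WR ++ padN 4)), none)]

theorem runF : runC 12 (sF0, l4) = some (sF1, l4) :=
  @of_decide_eq_true _ (decO _ _) (by decide +kernel)

def sS0 : List Seg :=
  [(L, some 0), (WL ++ (M1 ++ (M1 ++ M1)), none), (M1, some 1),
    (l1 :: (v2 ++ M2), none), (M2, some 2), (WR ++ padN 22, none)]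

def sS1 : List Seg :=
  [(L, some 0), (L ++ (L ++ (WL ++ (M1 ++ u1))), none), (v1 ++ u1, some 1),
    (v1 ++ [l1], none), (v2 ++ u2, some 2),
    (v2 ++ (rep 4 M2 ++ (WR ++ padN 4)), none)]

theorem runS : runC 12 (sS0, l4) = some (sS1, l4) :=
  @of_decide_eq_true _ (decO _ _) (by decide +kernel)

def sB0 : List Seg :=
  [(L, some 0), (WL ++ rep 8 M1, none), (M1, some 1),
    (Fw ++ (rep 7 M2 ++ (WR ++ padN 76)), none)]

def sB1 : List Seg :=
  [(L, some 0), (rep 8 L ++ (WL ++ M1), none), (M1, some 1),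
    (rep 12 M1 ++ (l1 :: (v2 ++ (rep 2 M2 ++ (WR ++ padN 5)))), none)]

theorem runB : runC 48 (sB0, l4) = some (sB1, l4) :=
  @of_decide_eq_true _ (decO _ _) (by decide +kernel)

def sA0 : List Seg :=
  [(L, some 0), (WL ++ (rep 2 M1 ++ (l1 :: (v2 ++ rep 20 M2))), none), (M2, some 2),
    (WR ++ padN 88, none)]

def sA1 : List Seg :=
  [(L, some 0), (rep 9 L ++ (WL ++ (rep 3 M1 ++ (Fw ++ M2))), none), (M2, some 2),
    (rep 21 M2 ++ (WR ++ padN 4), none)]

theorem runA : runC 56 (sA0, l4) = some (sA1, l4) :=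
  @of_decide_eq_true _ (decO _ _) (by decide +kernel)

end Pool.Agent.Lib.MP_3c1ca0_co
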